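import Pool.Agent.Y50.RD.Stm

/-! The next word. -/

set_option autoImplicit false

namespace Pool.Agent.Y435.RD

open Turing CategoryTheory Pool.Agent.H333R3.DG Pool.Agent.Y50.RD

variable {Γ Λ : Type} [Inhabited Γ] [Inhabited Λ] [Fintype Γ] [Fintype Λ]

theorem mem_mrules (M : TM0.Machine Γ Λ) (v : List ℕ) (r : List ℕ × List ℕ) :
    r ∈ mrules M v ↔ ∃ (l : Λ) (i : Fin 3) (y x : TL Γ),
      r = ((lhs l i y x).map en, rhq M v l i y x) := by
  simp only [mrules, List.mem_map, Finset.mem_toList, Finset.mem_univ, true_and]
  constructor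
  · rintro ⟨⟨⟨l, i⟩, ⟨y, x⟩⟩, rfl⟩
    exact ⟨l, i, y, x, rfl⟩
  · rintro ⟨l, i, y, x, rfl⟩
    exact ⟨((l, i), (y, x)), rfl⟩

theorem find_none (M : TM0.Machine Γ Λ) (v : List ℕ) (k : List ℕ)
    (h : ∀ (l : Λ) (i : Fin 3), k[1]? ≠ some (en (sq l i : Sy Γ Λ))) :
    (mrules M v).find? (fun r => decide (r.1 = k)) = none := by
  rw [List.find?_eq_none]
  intro r hr
  obtain ⟨l, i, y, x, rfl⟩ := (mem_mrules M v r).1 hr
  simp only [decide_eq_true_eq]
  intro h1
  apply h l i
  rw [← h1]
  simp [lhs]

theorem find_some (M : TM0.Machine Γ Λ) (v : List ℕ) (l : Λ) (i : Fin 3) (y x : TL Γ) :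
    (mrules M v).find? (fun r => decide (r.1 = (lhs l i y x).map en)) =
      some ((lhs l i y x).map en, rhq M v l i y x) := by
  rcases hf : (mrules M v).find? (fun r => decide (r.1 = (lhs l i y x).map en)) with _ | r
  · exfalso
    rw [List.find?_eq_none] at hf
    exact hf _ ((mem_mrules M v _).2 ⟨l, i, y, x, rfl⟩) (by simp)
  · have h1 := List.find?_some hf
    have h2 := List.mem_of_find?_eq_some hf
    obtain ⟨l', i', y', x', rfl⟩ := (mem_mrules M v r).1 h2
    have h3 : lhs l' i' y' x' = lhs l i y x := map_en_inj (of_decide_eq_true h1)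
    simp only [lhs, List.cons.injEq, Sum.inl.injEq, Sum.inr.injEq, Prod.mk.injEq,
      and_true] at h3
    obtain ⟨rfl, ⟨rfl, rfl⟩, rfl⟩ := h3
    exact hf

theorem nxt_cons_none (T : List (List ℕ × List ℕ)) (b : ℕ) (l : List ℕ)
    (h : T.find? (fun r => decide (r.1 = b :: l.take 2)) = none) :
    nxt T (b :: l) = b :: nxt T l := by
  rw [nxt, h]

theorem nxt_cons_some (T : List (List ℕ × List ℕ)) (b : ℕ) (l : List ℕ) (r : List ℕ × List ℕ)
    (h : T.find? (fun r => decide (r.1 = b :: l.take 2)) = some r) :
    nxt T (b :: l) = r.2 ++ l.drop 2 := by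
  rw [nxt, h]

theorem t : S_nxt := by
  intro Γ Λ _ _ _ _ M v
  constructor
  · intro A B l i y x
    induction A with
    | nil =>
      intro _
      have h := nxt_cons_some (mrules M v) (en (.inl y : Sy Γ Λ))
        (en (sq l i : Sy Γ Λ) :: en (.inl x : Sy Γ Λ) :: B.map en) _ (find_some M v l i y x)
      simpa [lhs] using h
    | cons a A ih =>
      intro hA
      have ha : heads A = 0 := by
        simp only [heads, List.countP_cons] at hA ⊢
        omega
      have h0 := ih ha
      have h1 : (a :: A ++ lhs l i y x ++ B).map en =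
          en a :: (A ++ lhs l i y x ++ B).map en := by simp
      rw [h1, nxt_cons_none, h0]
      · simp
      · apply find_none
        intro l' i' hc
        rcases A with _ | ⟨b, A⟩
        · simp only [lhs, List.nil_append, List.cons_append, List.map_cons, List.take_succ_cons,
            List.getElem?_cons_succ, List.getElem?_cons_zero, Option.some.injEq] at hc
          have := en_inj hc
          simp at this
        · simp only [List.cons_append, List.map_cons, List.take_succ_cons,
            List.getElem?_cons_succ, List.getElem?_cons_zero, Option.some.injEq] at hc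
          have h2 := en_inj hc
          subst h2
          simp [heads] at ha
  · intro w
    induction w with
    | nil => intro _; rfl
    | cons b w ih =>
      intro h
      rw [nxt_cons_none, ih fun l i hm => h l i (List.mem_cons_of_mem _ hm)]
      apply find_none
      intro l' i' hc
      rcases w with _ | ⟨c, w⟩
      · simp at hc
      · simp only [List.take_succ_cons,
            List.getElem?_cons_succ, List.getElem?_cons_zero, Option.some.injEq] at hc
        exact h l' i' (by rw [← hc]; simp)

end Pool.Agent.Y435.RD
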